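import Pool.Agent.Mg.Fe55146.Gacb253

open Pool.Agent.MP_e55146_lc

theorem Pool.Agent.Results.MP_e55146_lc.IntermediateDim.result :
    ∃ A : Set Str, 0 < dimP A (NP A) ∧ dimP A (NP A) < 1 := by
  obtain ⟨A, h1, h2⟩ := main_theorem
  exact ⟨A, by linarith, by linarith⟩
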